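import Pool.Agent.MWP.Stmts

/-!
# Row mwp REG: the region lemma
-/

set_option autoImplicit false

namespace Pool.Agent.MWP.H27

open Pool.Agent.Helper14_MV Pool.Agent.Helper2_MV Pool.Agent.MWF
open Pool.Agent.MWP

/-- one direction -/
theorem reg_one {P c m r r' Q : List ℕ} (h : ∀ x, x ∈ r ↔ x ∈ r') (hc : ∀ x ∈ r, x ∈ c) {x y : ℕ}
    (hs : [x, y].Sublist (P ++ c ++ m ++ r ++ Q)) :
    [x, y].Sublist (P ++ c ++ m ++ r' ++ Q) := by
  simp only [pair_append, List.mem_append] at hs ⊢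
  rcases hs with (h1 | ⟨h3, h4⟩ | h2) | ⟨h6, h7⟩ | h5
  · exact Or.inl (Or.inl h1)
  · exact Or.inl (Or.inr (Or.inl ⟨h3, (h y).1 h4⟩))
  · have hx : x ∈ c := hc x (pair_mem h2).1
    have hy : y ∈ r' := (h y).1 (pair_mem h2).2
    exact Or.inl (Or.inr (Or.inl ⟨Or.inl (Or.inr hx), hy⟩))
  · refine Or.inr (Or.inl ⟨?_, h7⟩)
    rcases h6 with h6 | h6
    · exact Or.inl h6
    · exact Or.inr ((h x).1 h6)
  · exact Or.inr (Or.inr h5)

theorem reg : RegStmt := by
  intro P c m r r' Q h hc x y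
  constructor
  · exact reg_one h hc
  · exact reg_one (fun z => (h z).symm) (fun z hz => hc z ((h z).2 hz))

end Pool.Agent.MWP.H27
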